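import Pool.Agent.H91.NV.LTargets

/-!
# Row L_LTO of the board nvk_modules (helper21)

The local table in principal coordinates, from the count of polynomials over the finite ring
`O / P ^ 2`.
-/

set_option autoImplicit false

open MeasureTheory Set Filter NumberField NumberField.InfinitePlace
open scoped Real

namespace Pool.Agent.H21.NVK

open Pool.Agent.H65.CM4 Pool.Agent.H61.NVK Pool.Agent.H89.NV Pool.Agent.H91.NV

section

set_option linter.unusedSectionVars false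
set_option linter.style.haveILetI false

variable {k : Type} [Field k] [NumberField k]

theorem rs_eq (I : Ideal (𝓞 k)) [Fintype (𝓞 k ⧸ I)] [DecidableEq (𝓞 k)] :
    Rs I = Finset.univ.image (Function.surjInv (Ideal.Quotient.mk_surjective (I := I))) := by
  have h : (Set.range (Function.surjInv (Ideal.Quotient.mk_surjective (I := I)))).Finite :=
    Set.finite_range _
  unfold Rs
  rw [dif_pos h]
  ext x
  simp

theorem mk_out (I : Ideal (𝓞 k)) (s : 𝓞 k ⧸ I) :
    Ideal.Quotient.mk I (Function.surjInv (Ideal.Quotient.mk_surjective (I := I)) s) = s :=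
  Function.surjInv_eq _ s

/-- sums over the representatives -/
theorem rs_sum {M : Type} [AddCommMonoid M] (I : Ideal (𝓞 k)) [Fintype (𝓞 k ⧸ I)]
    (g : 𝓞 k → M) : ∑ x ∈ Rs I, g x =
      ∑ s : 𝓞 k ⧸ I, g (Function.surjInv (Ideal.Quotient.mk_surjective (I := I)) s) := by
  classical
  rw [rs_eq I, Finset.sum_image]
  intro a _ b _ h
  exact Function.injective_surjInv _ h

open Classical in
/-- roots over the representatives -/
theorem rs_roots (I J : Ideal (𝓞 k)) (hIJ : I ≤ J) [Fintype (𝓞 k ⧸ I)] (α b c : 𝓞 k) :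
    ((Rs I).filter (fun s => α * s ^ 2 + b * s + c ∈ J)).card =
      rm (J.map (Ideal.Quotient.mk I)) (Ideal.Quotient.mk I α) (Ideal.Quotient.mk I b)
        (Ideal.Quotient.mk I c) := by
  unfold rm
  rw [Finset.card_filter, Finset.card_filter, rs_sum]
  refine Finset.sum_congr rfl fun s _ => ?_
  have h : (α * Function.surjInv (Ideal.Quotient.mk_surjective (I := I)) s ^ 2 +
      b * Function.surjInv (Ideal.Quotient.mk_surjective (I := I)) s + c ∈ J) ↔
      (Ideal.Quotient.mk I α * s ^ 2 + Ideal.Quotient.mk I b * s + Ideal.Quotient.mk I c ∈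
        J.map (Ideal.Quotient.mk I)) := by
    rw [← Ideal.mem_quotient_iff_mem hIJ]
    simp only [map_add, map_mul, map_pow, mk_out]
  simp only [h]

/-- the fibres of a surjection of finite additive groups -/
theorem fib {A B : Type} [AddCommGroup A] [AddCommGroup B] [Fintype A] [Fintype B]
    [DecidableEq B] (ϖ : A →+ B) (hϖ : Function.Surjective ϖ) (N : ℕ) (hN : 0 < N)
    (hA : Fintype.card A = N ^ 2) (hB : Fintype.card B = N) (b : B) :
    (Finset.univ.filter (fun a => ϖ a = b)).card = N := by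
  have h1 : ∀ b : B, (Finset.univ.filter (fun a => ϖ a = b)).card =
      (Finset.univ.filter (fun a => ϖ a = 0)).card := by
    intro b
    obtain ⟨a0, ha0⟩ := hϖ b
    refine Finset.card_bij (fun a _ => a - a0) ?_ ?_ ?_
    · intro a ha
      rw [Finset.mem_filter] at ha ⊢
      exact ⟨Finset.mem_univ _, by rw [map_sub, ha.2, ha0, sub_self]⟩
    · intro a _ a' _ h
      exact sub_left_inj.1 h
    · intro a ha
      rw [Finset.mem_filter] at ha
      refine ⟨a + a0, ?_, by rw [add_sub_cancel_right]⟩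
      rw [Finset.mem_filter]
      exact ⟨Finset.mem_univ _, by rw [map_add, ha.2, ha0, zero_add]⟩
  have h2 : Fintype.card A = ∑ b : B, (Finset.univ.filter (fun a => ϖ a = b)).card := by
    rw [← Finset.card_univ]
    exact Finset.card_eq_sum_card_fiberwise (fun a _ => Finset.mem_univ (ϖ a))
  rw [Finset.sum_congr rfl fun b _ => h1 b, Finset.sum_const, Finset.card_univ, hB, hA,
    smul_eq_mul, sq] at h2
  rw [h1]
  exact (Nat.eq_of_mul_eq_mul_left hN h2).symm

theorem fib_count {A B : Type} [AddCommGroup A] [AddCommGroup B] [Fintype A] [Fintype B]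
    [DecidableEq B] (ϖ : A →+ B) (hϖ : Function.Surjective ϖ) (N : ℕ) (hN : 0 < N)
    (hA : Fintype.card A = N ^ 2) (hB : Fintype.card B = N) (p : B → Prop) [DecidablePred p] :
    (Finset.univ.filter (fun a => p (ϖ a))).card = N * (Finset.univ.filter p).card := by
  have h1 : (Finset.univ.filter (fun a => p (ϖ a))).card =
      ∑ b ∈ Finset.univ.filter p, ((Finset.univ.filter (fun a => p (ϖ a))).filter
        (fun a => ϖ a = b)).card :=
    Finset.card_eq_sum_card_fiberwise (fun a ha => by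
      rw [Finset.mem_coe, Finset.mem_filter] at ha ⊢
      exact ⟨Finset.mem_univ _, ha.2⟩)
  rw [h1, Finset.sum_congr rfl (g := fun _ => N), Finset.sum_const, smul_eq_mul, mul_comm]
  intro b hb
  rw [Finset.mem_filter] at hb
  rw [← fib ϖ hϖ N hN hA hB b]
  congr 1
  ext a
  rw [Finset.mem_filter, Finset.mem_filter, Finset.mem_filter]
  constructor
  · rintro ⟨⟨h, -⟩, h'⟩
    exact ⟨h, h'⟩
  · rintro ⟨h, h'⟩
    exact ⟨⟨h, by rw [h']; exact hb.2⟩, h'⟩

end

section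

variable {k : Type} [Field k] [NumberField k]

theorem np_one (P : PrI k) : 1 < Ideal.absNorm P.1 := by
  have h0 : Ideal.absNorm P.1 ≠ 0 := fun h => P.2.2 (Ideal.absNorm_eq_zero_iff.1 h)
  have h1 : Ideal.absNorm P.1 ≠ 1 := fun h => P.2.1.ne_top (Ideal.absNorm_eq_one_iff.1 h)
  omega

theorem card_q (I : Ideal (𝓞 k)) [Fintype (𝓞 k ⧸ I)] :
    Fintype.card (𝓞 k ⧸ I) = Ideal.absNorm I := by
  rw [Ideal.absNorm_apply, Submodule.cardQuot_apply, Nat.card_eq_fintype_card]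

/-- the ring `O / P ^ 2` -/
theorem lr (P : PrI k) [Fintype (𝓞 k ⧸ P.1 ^ 2)] :
    LR (𝓞 k ⧸ P.1 ^ 2) (P.1.map (Ideal.Quotient.mk (P.1 ^ 2))) (Ideal.absNorm P.1) := by
  classical
  have hle : P.1 ^ 2 ≤ P.1 := Ideal.pow_le_self two_ne_zero
  have hN := np_one P
  have hcS : Fintype.card (𝓞 k ⧸ P.1 ^ 2) = Ideal.absNorm P.1 ^ 2 := by
    rw [card_q, map_pow]
  have hfin : Finite (𝓞 k ⧸ P.1) := Ideal.finiteQuotientOfFreeOfNeBot P.1 P.2.2
  let _ : Fintype (𝓞 k ⧸ P.1) := Fintype.ofFinite _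
  have hsurj : Function.Surjective (Ideal.Quotient.factor hle).toAddMonoidHom :=
    Ideal.Quotient.factor_surjective hle
  refine ⟨hN, hcS, ?_, ?_, ?_⟩
  · have h1 := fib (Ideal.Quotient.factor hle).toAddMonoidHom hsurj (Ideal.absNorm P.1)
      (by omega) hcS (card_q P.1) 0
    rw [← h1, Nat.card_eq_fintype_card, Fintype.card_subtype]
    congr 1
    ext x
    rw [Finset.mem_filter, Finset.mem_filter]
    refine and_congr_right fun _ => ?_
    obtain ⟨a, rfl⟩ := Ideal.Quotient.mk_surjective x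
    rw [Ideal.mem_quotient_iff_mem hle]
    show a ∈ P.1 ↔ Ideal.Quotient.mk P.1 a = 0
    exact Ideal.Quotient.eq_zero_iff_mem.symm
  · intro x hx y hy
    obtain ⟨a, ha, rfl⟩ := (Ideal.mem_map_iff_of_surjective _ Ideal.Quotient.mk_surjective).1 hx
    obtain ⟨b, hb, rfl⟩ := (Ideal.mem_map_iff_of_surjective _ Ideal.Quotient.mk_surjective).1 hy
    rw [← map_mul, Ideal.Quotient.eq_zero_iff_mem, sq]
    exact Ideal.mul_mem_mul ha hb
  · intro x
    constructor
    · intro hx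
      obtain ⟨a, rfl⟩ := Ideal.Quotient.mk_surjective x
      have ha : a ∉ P.1 := fun h => hx ((Ideal.mem_quotient_iff_mem hle).2 h)
      have hmax : P.1.IsMaximal := P.2.1.isMaximal P.2.2
      have h1 : IsCoprime (Ideal.span {a}) P.1 := by
        rw [Ideal.isCoprime_iff_sup_eq, sup_comm]
        refine hmax.1.2 _ (lt_of_le_of_ne le_sup_left fun h => ha ?_)
        rw [h]
        exact Ideal.mem_sup_right (Ideal.mem_span_singleton_self a)
      have h2 : IsCoprime (Ideal.span {a}) (P.1 ^ 2) := h1.pow_right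
      obtain ⟨u, hu, v, hv, huv⟩ := Ideal.isCoprime_iff_exists.1 h2
      obtain ⟨w, rfl⟩ := Ideal.mem_span_singleton'.1 hu
      refine IsUnit.of_mul_eq_one (Ideal.Quotient.mk (P.1 ^ 2) w) ?_
      rw [← map_mul, ← map_one (Ideal.Quotient.mk (P.1 ^ 2)), Ideal.Quotient.eq]
      rw [← huv]
      have : a * w - (w * a + v) = -v := by ring
      rw [this]
      exact neg_mem hv
    · intro hx hm
      have h2 : x * x = 0 := by
        obtain ⟨a, ha, rfl⟩ := (Ideal.mem_map_iff_of_surjective _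
          Ideal.Quotient.mk_surjective).1 hm
        rw [← map_mul, Ideal.Quotient.eq_zero_iff_mem, sq]
        exact Ideal.mul_mem_mul ha ha
      have h3 : (0 : 𝓞 k ⧸ P.1 ^ 2) = 1 := by
        have h4 := (hx.mul hx)
        rw [h2] at h4
        exact isUnit_zero_iff.1 h4
      have h5 : Subsingleton (𝓞 k ⧸ P.1 ^ 2) := subsingleton_of_zero_eq_one h3
      have h6 := Fintype.card_le_one_iff_subsingleton.2 h5
      rw [hcS] at h6
      nlinarith

end

section

variable (k : Type) [Field k] [NumberField k] [IsTotallyReal k]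

theorem pf_LTO (hRSB : T_RSB k) (hFRA : T_FRA) (hFRB : T_FRB) : T_LTO k := by
  classical
  intro P α α₁ Φ F hF
  have hle : P.1 ^ 2 ≤ P.1 := Ideal.pow_le_self two_ne_zero
  have hN := np_one P
  have hP2 : P.1 ^ 2 ≠ ⊥ := pow_ne_zero 2 P.2.2
  have hfin2 : Finite (𝓞 k ⧸ P.1 ^ 2) := Ideal.finiteQuotientOfFreeOfNeBot _ hP2
  let _ : Fintype (𝓞 k ⧸ P.1 ^ 2) := Fintype.ofFinite _
  have hfin : Finite (𝓞 k ⧸ P.1) := Ideal.finiteQuotientOfFreeOfNeBot P.1 P.2.2
  let _ : Fintype (𝓞 k ⧸ P.1) := Fintype.ofFinite _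
  have hcS : Fintype.card (𝓞 k ⧸ P.1 ^ 2) = Ideal.absNorm P.1 ^ 2 := by
    rw [card_q, map_pow]
  have hLR := lr P
  obtain ⟨N, hNd⟩ : ∃ N : ℕ, N = Ideal.absNorm P.1 := ⟨_, rfl⟩
  rw [← hNd] at hLR hN hcS
  have hnp : np P = (N : ℝ) := by
    rw [hNd]
    rfl
  have hN0 : (0 : ℝ) < N := by exact_mod_cast (by omega : 0 < N)
  -- the counts
  have hsurj : Function.Surjective (Ideal.Quotient.factor hle).toAddMonoidHom :=
    Ideal.Quotient.factor_surjective hle
  have hroot : ∀ x y z : 𝓞 k, rm (P.1.map (Ideal.Quotient.mk (P.1 ^ 2)))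
      (Ideal.Quotient.mk (P.1 ^ 2) x) (Ideal.Quotient.mk (P.1 ^ 2) y)
      (Ideal.Quotient.mk (P.1 ^ 2) z) =
      N * ((Rs P.1).filter (fun s => x * s ^ 2 + y * s + z ∈ P.1)).card := by
    intro x y z
    rw [rs_roots P.1 P.1 le_rfl]
    unfold rm
    rw [← fib_count (Ideal.Quotient.factor hle).toAddMonoidHom hsurj N (by omega) hcS
      (by rw [card_q, hNd])]
    congr 1
    ext s
    rw [Finset.mem_filter, Finset.mem_filter]
    refine and_congr_right fun _ => ?_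
    obtain ⟨a, rfl⟩ := Ideal.Quotient.mk_surjective s
    show Ideal.Quotient.mk (P.1 ^ 2) x * Ideal.Quotient.mk (P.1 ^ 2) a ^ 2 +
      Ideal.Quotient.mk (P.1 ^ 2) y * Ideal.Quotient.mk (P.1 ^ 2) a +
      Ideal.Quotient.mk (P.1 ^ 2) z ∈ _ ↔ Ideal.Quotient.mk P.1 x * Ideal.Quotient.mk P.1 a ^ 2 +
      Ideal.Quotient.mk P.1 y * Ideal.Quotient.mk P.1 a + Ideal.Quotient.mk P.1 z ∈ _
    rw [← map_pow, ← map_mul, ← map_mul, ← map_add, ← map_add, Ideal.mem_quotient_iff_mem hle,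
      ← map_pow, ← map_mul, ← map_mul, ← map_add, ← map_add, Ideal.mem_quotient_iff_mem le_rfl]
  have hroot2 : ∀ x y z : 𝓞 k, ((Rs (P.1 ^ 2)).filter
      (fun s => x * s ^ 2 + y * s + z ∈ P.1 ^ 2)).card = rm ⊥
      (Ideal.Quotient.mk (P.1 ^ 2) x) (Ideal.Quotient.mk (P.1 ^ 2) y)
      (Ideal.Quotient.mk (P.1 ^ 2) z) := by
    intro x y z
    rw [rs_roots _ _ le_rfl, Ideal.map_quotient_self]
  have hgm : ∀ b c : 𝓞 k, (¬ ∃ s, b + 2 * s ∈ P.1 ∧ s ^ 2 + b * s + α * c ∈ P.1 ^ 2) ↔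
      gm (P.1.map (Ideal.Quotient.mk (P.1 ^ 2))) (Ideal.Quotient.mk (P.1 ^ 2) α)
        (Ideal.Quotient.mk (P.1 ^ 2) b) (Ideal.Quotient.mk (P.1 ^ 2) c) := by
    intro b c
    unfold gm
    refine not_congr ⟨?_, ?_⟩
    · rintro ⟨s, h1, h2⟩
      refine ⟨Ideal.Quotient.mk (P.1 ^ 2) s, ?_, ?_⟩
      · have := (Ideal.mem_quotient_iff_mem hle).2 h1
        simpa only [map_add, map_mul, map_ofNat] using this
      · have := Ideal.Quotient.eq_zero_iff_mem.2 h2
        simpa only [map_add, map_mul, map_pow] using this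
    · rintro ⟨s, h1, h2⟩
      obtain ⟨a, rfl⟩ := Ideal.Quotient.mk_surjective s
      refine ⟨a, ?_, ?_⟩
      · refine (Ideal.mem_quotient_iff_mem hle).1 ?_
        simpa only [map_add, map_mul, map_ofNat] using h1
      · refine Ideal.Quotient.eq_zero_iff_mem.1 ?_
        simpa only [map_add, map_mul, map_pow] using h2
  -- the mean
  have hmean : ∀ G : (𝓞 k ⧸ P.1 ^ 2) → (𝓞 k ⧸ P.1 ^ 2) → ℝ,
      (∀ b c, F b c = G (Ideal.Quotient.mk (P.1 ^ 2) b) (Ideal.Quotient.mk (P.1 ^ 2) c)) →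
      mI ⊤ (P.1 ^ 2) (fun b => mI ⊤ (P.1 ^ 2) (F b)) = (∑ b, ∑ c, G b c) / (N : ℝ) ^ 4 := by
    intro G hG
    have hnm : nm (P.1 ^ 2) = (N : ℝ) ^ 2 := by
      unfold nm
      rw [map_pow, hNd]
      push_cast
      rfl
    have h1 : ∀ g : 𝓞 k → ℝ, mI ⊤ (P.1 ^ 2) g = (1 / (N : ℝ) ^ 2) * ∑ s : 𝓞 k ⧸ P.1 ^ 2,
        g (Function.surjInv (Ideal.Quotient.mk_surjective (I := P.1 ^ 2)) s) := by
      intro g
      unfold mI
      rw [hnm, Ideal.mul_top, Finset.filter_true_of_mem (fun x _ => Submodule.mem_top), rs_sum]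
    rw [h1]
    simp only [h1, hG, mk_out]
    rw [← Finset.mul_sum]
    field_simp
  have hdiv1 : ∀ x : ℕ, N * x / N = x := fun x => Nat.mul_div_cancel_left x (by omega)
  have hdd : N / N = 1 := Nat.div_self (by omega)
  have hd2 : 2 * N / N = 2 := by rw [mul_comm]; exact hdiv1 2
  have hd0 : 0 / N = 0 := Nat.zero_div N
  have hGe : ∀ b c : 𝓞 k, F b c = if gm (P.1.map (Ideal.Quotient.mk (P.1 ^ 2)))
      (Ideal.Quotient.mk (P.1 ^ 2) α) (Ideal.Quotient.mk (P.1 ^ 2) b)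
      (Ideal.Quotient.mk (P.1 ^ 2) c) then
      Φ (rm (P.1.map (Ideal.Quotient.mk (P.1 ^ 2))) 1 (Ideal.Quotient.mk (P.1 ^ 2) b)
          (Ideal.Quotient.mk (P.1 ^ 2) α * Ideal.Quotient.mk (P.1 ^ 2) c) / N)
        (rm (P.1.map (Ideal.Quotient.mk (P.1 ^ 2))) (Ideal.Quotient.mk (P.1 ^ 2) α)
          (Ideal.Quotient.mk (P.1 ^ 2) b) (Ideal.Quotient.mk (P.1 ^ 2) c) / N)
        (rm ⊥ (Ideal.Quotient.mk (P.1 ^ 2) α)
          (Ideal.Quotient.mk (P.1 ^ 2) b) (Ideal.Quotient.mk (P.1 ^ 2) c))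
        (rm (P.1.map (Ideal.Quotient.mk (P.1 ^ 2))) (Ideal.Quotient.mk (P.1 ^ 2) α₁)
          (Ideal.Quotient.mk (P.1 ^ 2) b) 0 / N) else 0 := by
    intro b c
    have e1 := hroot 1 b (α * c)
    rw [map_one, map_mul] at e1
    have e2 := hroot α b c
    have e3 := hroot2 α b c
    have e4 := hroot α₁ b 0
    rw [map_zero] at e4
    rw [hF, e1, e2, ← e3, e4, hdiv1, hdiv1, hdiv1]
    by_cases h : gm (P.1.map (Ideal.Quotient.mk (P.1 ^ 2))) (Ideal.Quotient.mk (P.1 ^ 2) α)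
        (Ideal.Quotient.mk (P.1 ^ 2) b) (Ideal.Quotient.mk (P.1 ^ 2) c)
    · rw [if_pos ((hgm b c).2 h), if_pos h]
      simp only [one_mul, add_zero]
    · rw [if_neg (fun h' => h ((hgm b c).1 h')), if_neg h]
  rw [hnp]
  refine ⟨?_, ?_, ?_⟩
  · intro hα hΦ
    have hu : IsUnit (Ideal.Quotient.mk (P.1 ^ 2) α) :=
      (hLR.unit _).1 fun h => hα ((Ideal.mem_quotient_iff_mem hle).1 h)
    have h1 := hFRA _ _ N hLR _ (fun x y z => Φ (x / N) (y / N) z 0) hu
    simp only [hd2, hdd, hd0] at h1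
    rw [hmean (fun b c => if gm (P.1.map (Ideal.Quotient.mk (P.1 ^ 2)))
      (Ideal.Quotient.mk (P.1 ^ 2) α) b c then
      Φ (rm (P.1.map (Ideal.Quotient.mk (P.1 ^ 2))) 1 b (Ideal.Quotient.mk (P.1 ^ 2) α * c) / N)
        (rm (P.1.map (Ideal.Quotient.mk (P.1 ^ 2))) (Ideal.Quotient.mk (P.1 ^ 2) α) b c / N)
        (rm ⊥ (Ideal.Quotient.mk (P.1 ^ 2) α) b c) 0 else 0)
        (fun b c => by rw [hGe]; simp only [hΦ]), h1]
    field_simp
  · intro hα hα2 hα1
    have h0 : Ideal.Quotient.mk (P.1 ^ 2) α ≠ 0 := fun h =>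
      hα2 (Ideal.Quotient.eq_zero_iff_mem.1 h)
    have hu : IsUnit (Ideal.Quotient.mk (P.1 ^ 2) α₁) :=
      (hLR.unit _).1 fun h => hα1 ((Ideal.mem_quotient_iff_mem hle).1 h)
    have h1 := (hFRB _ _ N hLR _ (Ideal.Quotient.mk (P.1 ^ 2) α₁)
      (fun x y z t => Φ (x / N) (y / N) z (t / N))
      ((Ideal.mem_quotient_iff_mem hle).2 hα)).1 h0 hu
    simp only [hd2, hdd, hd0] at h1
    rw [hmean (fun b c => if gm (P.1.map (Ideal.Quotient.mk (P.1 ^ 2)))
      (Ideal.Quotient.mk (P.1 ^ 2) α) b c then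
      Φ (rm (P.1.map (Ideal.Quotient.mk (P.1 ^ 2))) 1 b (Ideal.Quotient.mk (P.1 ^ 2) α * c) / N)
        (rm (P.1.map (Ideal.Quotient.mk (P.1 ^ 2))) (Ideal.Quotient.mk (P.1 ^ 2) α) b c / N)
        (rm ⊥ (Ideal.Quotient.mk (P.1 ^ 2) α) b c)
        (rm (P.1.map (Ideal.Quotient.mk (P.1 ^ 2))) (Ideal.Quotient.mk (P.1 ^ 2) α₁) b 0 / N)
        else 0) hGe, h1]
    field_simp
  · intro hα2 hα1
    have h0 : Ideal.Quotient.mk (P.1 ^ 2) α = 0 := Ideal.Quotient.eq_zero_iff_mem.2 hα2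
    have h1 := (hFRB _ _ N hLR _ (Ideal.Quotient.mk (P.1 ^ 2) α₁)
      (fun x y z t => Φ (x / N) (y / N) z (t / N))
      ((Ideal.mem_quotient_iff_mem hle).2 (hle hα2))).2 h0
      ((Ideal.mem_quotient_iff_mem hle).2 hα1)
    simp only [hd2, hdd, hd0] at h1
    rw [hmean (fun b c => if gm (P.1.map (Ideal.Quotient.mk (P.1 ^ 2)))
      (Ideal.Quotient.mk (P.1 ^ 2) α) b c then
      Φ (rm (P.1.map (Ideal.Quotient.mk (P.1 ^ 2))) 1 b (Ideal.Quotient.mk (P.1 ^ 2) α * c) / N)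
        (rm (P.1.map (Ideal.Quotient.mk (P.1 ^ 2))) (Ideal.Quotient.mk (P.1 ^ 2) α) b c / N)
        (rm ⊥ (Ideal.Quotient.mk (P.1 ^ 2) α) b c)
        (rm (P.1.map (Ideal.Quotient.mk (P.1 ^ 2))) (Ideal.Quotient.mk (P.1 ^ 2) α₁) b 0 / N)
        else 0) hGe, h1]
    field_simp

end

end Pool.Agent.H21.NVK
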